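import Pool.Agent.H53.VK.Stm2

/-!
# Crew VK, part SXR
-/

set_option autoImplicit false

namespace VK

/-- discrete intermediate value theorem -/
theorem threshold (S : Finset Pt) (r : Pt → ℝ) (u : Pt → ℤ) :
    (∀ z ∈ S, ∀ z' ∈ S, r z = r z' → z = z') → (∀ z ∈ S, u z = 1 ∨ u z = -1) →
    ∀ (m : ℤ) (b : ℝ), (∀ z ∈ S, b < r z) →
      ((0 ≤ m ∧ m ≤ ∑ z ∈ S, u z) ∨ (∑ z ∈ S, u z ≤ m ∧ m ≤ 0)) →
      ∃ s : ℝ, b < s ∧ (∀ z ∈ S, r z ≠ s) ∧ ∑ z ∈ S, (if s < r z then u z else 0) = m := by
  classical
  induction S using Finset.induction_on_min_value r with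
  | empty =>
    intro _ _ m b _ h
    simp only [Finset.sum_empty] at h ⊢
    exact ⟨b + 1, by linarith, by simp, by omega⟩
  | insert a S ha hmin ih =>
    intro hinj hu m b hb hm
    have hra : ∀ z ∈ S, r a < r z := by
      intro z hz
      rcases (hmin z hz).lt_or_eq with h | h
      · exact h
      · exact absurd (hinj a (Finset.mem_insert_self _ _) z (Finset.mem_insert_of_mem hz) h)
          (by rintro rfl; exact ha hz)
    have hba := hb a (Finset.mem_insert_self _ _)
    by_cases heq : m = ∑ z ∈ insert a S, u z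
    · refine ⟨(b + r a) / 2, by linarith, ?_, ?_⟩
      · intro z hz h
        rcases Finset.mem_insert.1 hz with rfl | hz'
        · linarith
        · have := hra z hz'
          linarith
      · rw [heq]
        apply Finset.sum_congr rfl
        intro z hz
        rw [if_pos]
        rcases Finset.mem_insert.1 hz with rfl | hz'
        · linarith
        · have := hra z hz'
          linarith
    · rw [Finset.sum_insert ha] at hm heq
      have hua := hu a (Finset.mem_insert_self _ _)
      obtain ⟨s, hs1, hs2, hs3⟩ := ih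
        (fun z hz z' hz' h => hinj z (Finset.mem_insert_of_mem hz) z' (Finset.mem_insert_of_mem hz') h)
        (fun z hz => hu z (Finset.mem_insert_of_mem hz)) m (r a) hra (by omega)
      refine ⟨s, by linarith, ?_, ?_⟩
      · intro z hz
        rcases Finset.mem_insert.1 hz with rfl | hz'
        · exact hs1.ne
        · exact hs2 z hz'
      · rw [Finset.sum_insert ha, if_neg (by linarith), hs3, zero_add]

theorem SXR_proved : SXR_stmt := by
  classical
  intro A B O hdis hcard hA hcr
  have hB : B.Nonempty := by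
    rw [← Finset.card_pos, ← hcard]; exact Finset.card_pos.2 hA
  have hO : ∀ z ∈ A ∪ B, z ≠ O := by
    intro z hz hzO
    have hex : ∃ q ∈ A ∪ B, z ≠ q := by
      obtain ⟨a, ha⟩ := hA
      obtain ⟨b, hb⟩ := hB
      by_cases h : z = a
      · refine ⟨b, Finset.mem_union_right _ hb, ?_⟩
        rintro rfl
        subst h
        exact (Finset.disjoint_left.1 hdis) ha hb
      · exact ⟨a, Finset.mem_union_left _ ha, h⟩
    obtain ⟨q, hq, hzq⟩ := hex
    apply hcr z hz q hq hzq
    rw [hzO]
    simp [cr]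
  obtain ⟨c, hc⟩ := Infinite.exists_notMem_finset
    ((A ∪ B).image fun z : Pt => -(z.1 - O.1) / (z.2 - O.2))
  set h : Fn := ⟨1, c, -O.1 - c * O.2⟩ with hh
  set t : Fn := ⟨0, 1, -O.2⟩ with ht
  have evh : ∀ z : Pt, ev h z = (z.1 - O.1) + c * (z.2 - O.2) := by
    intro z; simp only [ev, hh]; ring
  have evt : ∀ z : Pt, ev t z = z.2 - O.2 := by
    intro z; simp only [ev, ht]; ring
  have hz0 : ∀ z ∈ A ∪ B, ev h z ≠ 0 := by
    intro z hz h0
    rw [evh] at h0
    by_cases h2 : z.2 - O.2 = 0
    · rw [h2, mul_zero, add_zero] at h0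
      exact hO z hz (Prod.ext (by linarith) (by linarith))
    · apply hc
      rw [Finset.mem_image]
      refine ⟨z, hz, ?_⟩
      rw [div_eq_iff h2]
      linarith
  set r : Pt → ℝ := fun z => ev t z / ev h z with hr
  have hinj : ∀ z ∈ A ∪ B, ∀ z' ∈ A ∪ B, r z = r z' → z = z' := by
    intro z hz z' hz' he
    by_contra hne
    apply hcr z hz z' hz' hne
    simp only [hr] at he
    rw [div_eq_div_iff (hz0 z hz) (hz0 z' hz'), evt, evt, evh, evh] at he
    unfold cr
    linarith
  set w : Pt → ℤ := fun z => if z ∈ A then 1 else -1 with hw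
  set u : Pt → ℤ := fun z => if 0 < ev h z then w z else -w z with hu
  set m : ℤ := -∑ z ∈ A ∪ B, (if ev h z < 0 then w z else 0) with hm
  have hwA : ∀ z ∈ A, w z = 1 := fun z hz => by simp only [hw]; rw [if_pos hz]
  have hwB : ∀ z ∈ B, w z = -1 := fun z hz => by
    simp only [hw]; rw [if_neg (fun h' => (Finset.disjoint_left.1 hdis) h' hz)]
  have hwsum : ∑ z ∈ A ∪ B, w z = 0 := by
    rw [Finset.sum_union hdis, Finset.sum_congr rfl hwA, Finset.sum_congr rfl hwB]
    simp only [Finset.sum_const, nsmul_eq_mul, mul_one, mul_neg]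
    rw [hcard]; ring
  have husum : ∑ z ∈ A ∪ B, u z = 2 * m := by
    have h1 : ∀ z ∈ A ∪ B, u z = w z - 2 * (if ev h z < 0 then w z else 0) := by
      intro z hz
      simp only [hu]
      rcases lt_or_gt_of_ne (hz0 z hz) with h' | h'
      · rw [if_neg (not_lt.2 h'.le), if_pos h']; ring
      · rw [if_pos h', if_neg (not_lt.2 h'.le)]; ring
    rw [Finset.sum_congr rfl h1, Finset.sum_sub_distrib, hwsum, ← Finset.mul_sum, hm]
    ring
  have hu1 : ∀ z ∈ A ∪ B, u z = 1 ∨ u z = -1 := by
    intro z _
    simp only [hu, hw]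
    split_ifs <;> simp
  obtain ⟨s, -, hs1, hs2⟩ := threshold (A ∪ B) r u hinj hu1 m (-(∑ z ∈ A ∪ B, |r z|) - 1)
    (by
      intro z hz
      have h1 : |r z| ≤ ∑ z ∈ A ∪ B, |r z| :=
        Finset.single_le_sum (f := fun z => |r z|) (fun _ _ => abs_nonneg _) hz
      have h2 := neg_abs_le (r z)
      linarith) (by rw [husum]; omega)
  have hg : ∀ z, ev (lin 1 t (-s) h 0) z = ev t z - s * ev h z := by
    intro z; rw [ev_lin]; ring
  have hg' : ∀ z ∈ A ∪ B, ev (lin 1 t (-s) h 0) z = ev h z * (r z - s) := by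
    intro z hz
    rw [hg]
    simp only [hr]
    have := hz0 z hz
    field_simp
  refine ⟨lin 1 t (-s) h 0, ?_, ?_, ?_⟩
  · rw [hg, evt, evh]; ring
  · intro z hz
    rw [hg' z hz]
    exact mul_ne_zero (hz0 z hz) (sub_ne_zero.2 (hs1 z hz))
  · set g := lin 1 t (-s) h 0 with hgdef
    have h1 : ∀ z ∈ A ∪ B, (if 0 < ev g z then w z else 0) =
        (if ev h z < 0 then w z else 0) + (if s < r z then u z else 0) := by
      intro z hz
      rw [hg' z hz]
      have hrs := hs1 z hz
      simp only [hu]
      rcases lt_or_gt_of_ne (hz0 z hz) with h' | h'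
      · rw [if_pos h', if_neg (not_lt.2 h'.le)]
        rcases lt_or_gt_of_ne hrs with h2 | h2
        · rw [if_pos (mul_pos_of_neg_of_neg h' (by linarith)), if_neg (by linarith)]; ring
        · rw [if_neg (by nlinarith), if_pos h2]; ring
      · rw [if_neg (not_lt.2 h'.le), if_pos h']
        rcases lt_or_gt_of_ne hrs with h2 | h2
        · rw [if_neg (by nlinarith), if_neg (by linarith)]; ring
        · rw [if_pos (mul_pos h' (by linarith)), if_pos h2]; ring
    have h2 : ∑ z ∈ A ∪ B, (if 0 < ev g z then w z else 0) = 0 := by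
      rw [Finset.sum_congr rfl h1, Finset.sum_add_distrib, hs2, hm]
      ring
    rw [Finset.sum_union hdis] at h2
    have h3 : ∑ z ∈ A, (if 0 < ev g z then w z else 0) =
        ((A.filter fun z => 0 < ev g z).card : ℤ) := by
      rw [Finset.card_filter, Nat.cast_sum]
      apply Finset.sum_congr rfl
      intro z hz
      rw [hwA z hz]
      split_ifs <;> simp
    have h4 : ∑ z ∈ B, (if 0 < ev g z then w z else 0) =
        -((B.filter fun z => 0 < ev g z).card : ℤ) := by
      rw [Finset.card_filter, Nat.cast_sum, ← Finset.sum_neg_distrib]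
      apply Finset.sum_congr rfl
      intro z hz
      rw [hwB z hz]
      split_ifs <;> simp
    rw [h3, h4] at h2
    omega

end VK
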